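import Mathlib
import Pool.Agent.N432.SkewSub

/-!
Cross-intersecting sequences of pairs of nonempty projective subspaces of the `n`-dimensional
projective space over an arbitrary field have length at most `2 ^ (n + 1) - 2`.
-/

set_option autoImplicit false

namespace Pool.Agent.Results.MP_59f694_co.CrossIntersecting

open scoped LinearAlgebra.Projectivization

theorem disjoint_of_inter {F V : Type*} [Field F] [AddCommGroup V] [Module F V]
    (A B : Projectivization.Subspace F V)
    (h : (A : Set (ℙ F V)) ∩ (B : Set (ℙ F V)) = ∅) :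
    Disjoint (Projectivization.Subspace.submodule A) (Projectivization.Subspace.submodule B) := by
  rw [Submodule.disjoint_def]
  intro x hA hB
  by_contra hx
  have h1 := (Projectivization.Subspace.mem_submodule_iff A hx).1 hA
  have h2 := (Projectivization.Subspace.mem_submodule_iff B hx).1 hB
  have h3 : Projectivization.mk F x hx ∈ (A : Set (ℙ F V)) ∩ (B : Set (ℙ F V)) := ⟨h1, h2⟩
  rw [h] at h3
  exact h3

theorem not_disjoint_of_inter {F V : Type*} [Field F] [AddCommGroup V] [Module F V]
    (A B : Projectivization.Subspace F V)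
    (h : ((A : Set (ℙ F V)) ∩ (B : Set (ℙ F V))).Nonempty) :
    ¬ Disjoint (Projectivization.Subspace.submodule A)
      (Projectivization.Subspace.submodule B) := by
  obtain ⟨p, hpA, hpB⟩ := h
  induction p using Projectivization.ind with
  | h v hv =>
    rw [Submodule.disjoint_def]
    intro hd
    exact hv (hd v ((Projectivization.Subspace.mem_submodule_iff A hv).2 hpA)
      ((Projectivization.Subspace.mem_submodule_iff B hv).2 hpB))

theorem ne_bot_of_nonempty {F V : Type*} [Field F] [AddCommGroup V] [Module F V]
    (A : Projectivization.Subspace F V) (h : (A : Set (ℙ F V)).Nonempty) :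
    Projectivization.Subspace.submodule A ≠ ⊥ := by
  obtain ⟨p, hp⟩ := h
  induction p using Projectivization.ind with
  | h v hv =>
    intro h0
    have h1 := (Projectivization.Subspace.mem_submodule_iff A hv).2 hp
    rw [h0, Submodule.mem_bot] at h1
    exact hv h1

/-- Let `F` be a field, `n ≥ 0`, and let `(A i, B i)`, `i < m`, be pairs of nonempty projective
subspaces of the `n`-dimensional projective space over `F` with `A i ∩ B i = ∅` for all `i` and
`A i ∩ B j ≠ ∅` for all `i < j`. Then `m ≤ 2 ^ (n + 1) - 2`. -/
theorem result {F : Type*} [Field F] (n m : ℕ)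
    (A B : Fin m → Projectivization.Subspace F (Fin (n + 1) → F))
    (hA : ∀ i, (A i : Set (ℙ F (Fin (n + 1) → F))).Nonempty)
    (hB : ∀ i, (B i : Set (ℙ F (Fin (n + 1) → F))).Nonempty)
    (hAB : ∀ i, (A i : Set (ℙ F (Fin (n + 1) → F))) ∩ (B i : Set (ℙ F (Fin (n + 1) → F))) = ∅)
    (hcross : ∀ i j, i < j →
      ((A i : Set (ℙ F (Fin (n + 1) → F))) ∩ (B j : Set (ℙ F (Fin (n + 1) → F)))).Nonempty) :
    m ≤ 2 ^ (n + 1) - 2 := by
  refine Pool.Agent.N432.SkewSub.total (K := F) (V := Fin (n + 1) → F) (by simp)
    (fun i => Projectivization.Subspace.submodule (A i))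
    (fun i => Projectivization.Subspace.submodule (B i))
    (fun i => ne_bot_of_nonempty _ (hA i)) (fun i => ne_bot_of_nonempty _ (hB i))
    (fun i => disjoint_of_inter _ _ (hAB i)) (fun i j hij => not_disjoint_of_inter _ _ (hcross i j hij))

end Pool.Agent.Results.MP_59f694_co.CrossIntersecting
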